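import Pool.Agent.H51.ERA.Stmts
import Pool.Agent.H51.ERA.Base

set_option autoImplicit false

namespace Pool.Agent.H87.ERA

open Pool.Agent.H51.ERA

theorem seg_fst (s t : ℕ) (b : ℕ → Bool) (i : ℕ) (p : List Bool) :
    (seg s t b (i, p)).map Prod.fst =
      (List.range' (p.length * gg s t) (gg s t)).map (ty s t b) := by
  unfold seg
  rw [List.map_map, List.range'_eq_map_range, List.map_map]
  rfl

theorem left_tw (s t : ℕ) (b : ℕ → Bool) (i : ℕ) : ∀ (h : ℕ) (p : List Bool) (m : ℕ),
    ∃ (z : List Ent) (a : Ltr) (C : List Ltr),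
      Tw s t b i h p m = z.map Ltr.op ++ a :: C ∧ Leaf a ∧
      z.map Prod.fst = (List.range' (p.length * gg s t) ((h + 1) * gg s t)).map (ty s t b) := by
  intro h
  induction h with
  | zero =>
    intro p m
    refine ⟨seg s t b (i, p), (if m = 0 then Ltr.ee else Ltr.dd),
      (seg s t b (i, p)).reverse.map Ltr.cl, rfl, ?_, ?_⟩
    · split_ifs
      · exact Or.inr rfl
      · exact Or.inl rfl
    · rw [seg_fst]; simp
  | succ h ih =>
    intro p m
    obtain ⟨z, a, C, h1, h2, h3⟩ := ih (false :: p) (min m (2 ^ h))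
    refine ⟨seg s t b (i, p) ++ z, a, C ++ (Tw s t b i h (true :: p) (m - 2 ^ h) ++
      (seg s t b (i, p)).reverse.map Ltr.cl), ?_, h2, ?_⟩
    · have e : Tw s t b i (h + 1) p m = (seg s t b (i, p)).map Ltr.op ++
        ((Tw s t b i h (false :: p) (min m (2 ^ h)) ++ Tw s t b i h (true :: p) (m - 2 ^ h)) ++
        (seg s t b (i, p)).reverse.map Ltr.cl) := rfl
      rw [e, h1]
      simp [List.append_assoc]
    · rw [List.map_append, seg_fst, h3, ← List.map_append]
      have e : (h + 1 + 1) * gg s t = gg s t + (h + 1) * gg s t := by ring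
      rw [e, ← List.range'_append_1]
      have e2 : (false :: p).length * gg s t = p.length * gg s t + gg s t := by
        rw [List.length_cons]; ring
      rw [e2]

theorem LEFT_thm (hSUB : SUBStmt) : LEFTStmt := by
  intro s t b i p hn
  obtain ⟨A, C, m, h1, h2⟩ := hSUB s t b i p hn
  obtain ⟨z, a, C', h3, h4, h5⟩ := left_tw s t b i (DD t - p.length) p m
  refine ⟨z, a, C' ++ C, ?_, h4, ?_⟩
  · rw [h1, h3, ← h2, List.drop_left]
    simp [List.append_assoc]
  · rw [h5]
    have : DD t - p.length + 1 = DD t + 1 - p.length := by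
      have := hn.2
      omega
    rw [this]

end Pool.Agent.H87.ERA
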