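import Pool.Agent.H51.ERA.Stmts

set_option autoImplicit false

namespace Pool.Agent.H87.ERA

open Pool.Agent.H51.ERA

theorem NEST_thm : NESTStmt := by
  intro s t i p c h
  have hp : p.length + 1 ≤ DD t := by
    have := h.2
    simpa using this
  have e1 : DD t - p.length = (DD t - (p.length + 1)) + 1 := by omega
  have e2 : tl s t (DD t - p.length) = 2 * gg s t + 2 * tl s t (DD t - (p.length + 1)) := by
    rw [e1]; rfl
  have e3 : lo s t i (c :: p) =
      lo s t i p + gg s t + (if c = true then tl s t (DD t - (p.length + 1)) else 0) := rfl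
  have e4 : hi s t i (c :: p) = lo s t i (c :: p) + tl s t (DD t - (p.length + 1)) := rfl
  have e5 : hi s t i p = lo s t i p + tl s t (DD t - p.length) := rfl
  constructor
  · rw [e3]; omega
  · rw [e4, e5, e2, e3]
    split_ifs <;> omega

end Pool.Agent.H87.ERA
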